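import Mathlib
import Pool.Graph.R_seed8.TH497.PW.IntFlow
import Pool.Graph.R_seed8.TH497.TW.Std
import Pool.Graph.R_seed8.TH362.FP.Pos
import Pool.Agent.H90.BW.Sparse

set_option autoImplicit false

/-!
# Nowhere-zero 5-flows: tree decompositions with bags which are not sparse (MP_9f8812_co)

Let `G` be a bridgeless multigraph with a tree decomposition such that any `21` vertices of a bag
include all vertices of a circuit of `G` with `2, ..., 11` edges (for example: such that all bags have
at most `20` vertices, that is treewidth at most `19`).  Then `G` has a nowhere-zero 5-flow, and the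
characteristic polynomial of its bond matroid is positive at all integers `q ≥ 5`.  There is no
condition on the degrees, on the connectivity, on the number of vertices or on the size of the bags.
(The library, `MP_974d84_co.SparseWidths`, has the same with `20` in the place of `21`, so treewidth
at most 18.)

Proof.  The class is closed under contractions (library `R129/Tia`).  In a counterexample with as few
edges as possible there are no circuits with at most eleven edges (library `Y335/FL`); so the bags
have at most 20 vertices.  Graphs of treewidth at most 19 are closed under minors.  By the library a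
minimal counterexample has girth at least twelve and every vertex has at least three neighbours; so
it has at least 126 vertices.

(1) A piecewise linear Moore bound (`H90/BW/Gb`).  Let `H` be a graph with `n` vertices, `m` edges,
minimum degree at least two and girth at least twelve, and let `c_0, ..., c_5` be ANY integers.  Then
`m n ≥ ∑_{i<6} 2 ^ c_i (6 i (m - n) - 2 m (c_i - 1))`.
The `i`-th term on the right is a lower bound for the number of the nonbacktracking walks with
`i + 1` edges.  (The Moore bound of Alon, Hoory and Linial has `2 m (2 m / n - 1) ^ i`.)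

(2) Consequently (`H90/BW/Ex3`, `H90/BW/Tw19`) 31 to 57 vertices with at least three neighbours each
have at least 21 outer neighbours, and 28 to 31 such vertices have at least 20 outer neighbours.

(3) Eliminate the vertices in a good order (library `R15/TW18`).  The separated pieces have at most
19 outer neighbours, and by (2) at most 27 vertices as long as they have at most 31: all pieces next
to the eliminated vertex `r` have their outer neighbours in one set of at most 20 vertices, which
contains `r`; adding these pieces one by one, each of at most 27 vertices, one never reaches 31 to 57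
vertices, so the union has at most 30 vertices, and with `r` it is a piece with at most 31, hence at
most 27 vertices.  At the end a whole component has at most 27 vertices, but it has at least 126.
-/

namespace Pool.Agent.Results.MP_9f8812_co.TreewidthNineteen

open Pool.Agent.TH497.PW Pool.Agent.TH497.TW Pool.Agent.R129.Tia Pool.Agent.H90.BW

variable {V E ι : Type}

/-- The edges with exactly one end in `X`. -/
def boundary [DecidableEq V] [Fintype E] (src dst : E → V) (X : Finset V) : Finset E :=
  Finset.univ.filter (fun e => ¬ (src e ∈ X ↔ dst e ∈ X))

/-- Kirchhoff's law. -/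
def IsFlow [DecidableEq V] [Fintype E] (src dst : E → V) (f : E → ℤ) : Prop :=
  ∀ v : V, ∑ e ∈ Finset.univ.filter (fun e => src e = v), f e
    = ∑ e ∈ Finset.univ.filter (fun e => dst e = v), f e

/-- The number of the components of the graph with the vertices `V` and the edges `A`. -/
noncomputable def components (src dst : E → V) (A : Finset E) : ℕ :=
  Nat.card (SimpleGraph.fromRel
    (fun u v : V => ∃ e ∈ A, src e = u ∧ dst e = v)).ConnectedComponent

/-- The rank of `A` in the cycle matroid of the graph. -/
noncomputable def cycleRank [Fintype V] (src dst : E → V) (A : Finset E) : ℕ :=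
  Fintype.card V - components src dst A

/-- The rank of `A` in the bond matroid of the graph (the dual of the cycle matroid). -/
noncomputable def bondRank [Fintype V] [Fintype E] [DecidableEq E] (src dst : E → V)
    (A : Finset E) : ℕ :=
  A.card + cycleRank src dst Aᶜ - cycleRank src dst Finset.univ

/-- The characteristic polynomial of the bond matroid at the integer `x`. -/
noncomputable def bondCharPoly [Fintype V] [Fintype E] [DecidableEq E] (src dst : E → V)
    (x : ℤ) : ℤ :=
  ∑ A : Finset E, (-1) ^ A.card * x ^ (bondRank src dst Finset.univ - bondRank src dst A)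

/-- The edge `e` joins `x` and `y`. -/
def Joins (src dst : E → V) (e : E) (x y : V) : Prop :=
  (src e = x ∧ dst e = y) ∨ (src e = y ∧ dst e = x)

/-- All vertices of some circuit with `k + 2 = 2, ..., 11` edges are in `S`: the vertices `v i` are
distinct, the edges `e i` are distinct, and `e i` joins `v i` and `v (i + 1)` (modulo `k + 2`). -/
def HasShortCircuit (src dst : E → V) (S : Finset V) : Prop :=
  ∃ k, k ≤ 9 ∧ ∃ (v : Fin (k + 2) → V) (e : Fin (k + 2) → E), Function.Injective v ∧
    Function.Injective e ∧ ∀ i, v i ∈ S ∧ Joins src dst (e i) (v i) (v (i + 1))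

/-- Any `n` vertices in `B` include all vertices of a circuit with `2, ..., 11` edges.  (Sets with
fewer than `n` vertices have this property.) -/
def NotSparse (src dst : E → V) (n : ℕ) (B : Finset V) : Prop :=
  ∀ S ⊆ B, S.card = n → HasShortCircuit src dst S

/-- The sets `X i`, for the nodes `i` of the graph `T`, are a tree decomposition: `T` is a tree,
every edge has both ends in one of the sets, and a vertex in `X i` and `X j` is in `X k` for all `k`
on the path of `T` from `i` to `j`. -/
structure IsTreeDecomposition [DecidableEq V] (src dst : E → V) (T : SimpleGraph ι)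
    (X : ι → Finset V) : Prop where
  tree : T.IsTree
  edge : ∀ e, ∃ i, src e ∈ X i ∧ dst e ∈ X i
  path : ∀ (i j : ι) (p : T.Walk i j), p.IsPath → ∀ k ∈ p.support, X i ∩ X j ⊆ X k

theorem isFlow_iff [DecidableEq V] [Fintype E] (src dst : E → V) (f : E → ℤ) :
    IsFlow src dst f ↔
      ∀ v, ∑ e, f e * ((if src e = v then 1 else 0) - (if dst e = v then 1 else 0)) = 0 := by
  unfold IsFlow
  refine forall_congr' fun v => ?_
  rw [Finset.sum_filter, Finset.sum_filter, ← sub_eq_zero, ← Finset.sum_sub_distrib]
  have : ∀ e, (if src e = v then f e else 0) - (if dst e = v then f e else 0)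
      = f e * ((if src e = v then 1 else 0) - (if dst e = v then 1 else 0)) := by
    intro e
    by_cases h1 : src e = v <;> by_cases h2 : dst e = v <;> simp [h1, h2]
  rw [Finset.sum_congr rfl (fun e _ => this e)]

theorem nzf [Fintype V] [DecidableEq V] [Fintype E] [DecidableEq E] (src dst : E → V)
    (h : Pool.Agent.TH676.Z.FlowOn src dst ∅ ∅) : NZF src dst := by
  obtain ⟨f, h1, _, h3⟩ := h
  refine ⟨f, fun e => h3 e (Finset.notMem_empty _) (Finset.notMem_empty _), fun x => ?_⟩
  rw [← h1 x]
  unfold Pool.Agent.TH676.Z.bd
  refine Finset.sum_congr rfl fun e _ => ?_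
  unfold ic
  by_cases h4 : src e = x <;> by_cases h5 : dst e = x <;> simp [h4, h5]

theorem charPoly_pos [Fintype V] [DecidableEq V] [Fintype E] [DecidableEq E] (src dst : E → V)
    (f : E → ℤ) (h1 : IsFlow src dst f) (h2 : ∀ e, 1 ≤ |f e| ∧ |f e| ≤ 4) (q : ℕ) (hq : 5 ≤ q) :
    0 < bondCharPoly src dst q :=
  Pool.Agent.TH362.FP.chr_pos src dst f h2 h1 q hq

/-- **Theorem.** Let `G` be a finite multigraph (loops and parallel edges allowed), given by the ends
`src e`, `dst e` of each edge `e`, without an edge cut consisting of exactly one edge.  If `G` has a
tree decomposition such that any 21 vertices of a bag include all vertices of a circuit with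
`2, ..., 11` edges, then `G` has an integer flow with values in `{±1, ±2, ±3, ±4}`, and the
characteristic polynomial of the bond matroid of `G` is positive at all integers `q ≥ 5`. -/
theorem result :
    ∀ (V E ι : Type) [Fintype V] [DecidableEq V] [Fintype E] [DecidableEq E] [Fintype ι]
      (src dst : E → V) (T : SimpleGraph ι) (X : ι → Finset V),
      IsTreeDecomposition src dst T X → (∀ i, NotSparse src dst 21 (X i)) →
      (∀ Y : Finset V, (boundary src dst Y).card ≠ 1) →
      (∃ f : E → ℤ, IsFlow src dst f ∧ ∀ e, 1 ≤ |f e| ∧ |f e| ≤ 4) ∧
      ∀ q : ℕ, 5 ≤ q → 0 < bondCharPoly src dst q := by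
  intro V E ι _ _ _ _ _ src dst T X hX hS hb
  have hfl := Sp.flow_tree (src := src) (dst := dst) (HasTw.of_tree hX.tree
    (fun i j p hp k hk v hi hj => hX.path i j p hp k hk (Finset.mem_inter.mpr ⟨hi, hj⟩))
    hX.edge fun i => Sp.spw (hS i)) (fun Y _ => by rw [Finset.sdiff_empty]; exact hb Y)
  obtain ⟨F, hF, hF0⟩ := int_flow src dst (nzf src dst hfl)
  have hF1 := (isFlow_iff src dst F).mpr hF0
  exact ⟨⟨F, hF1, hF⟩, fun q hq => charPoly_pos src dst F hF1 hF q hq⟩

/-- Treewidth at most 19. -/
theorem width (V E ι : Type) [Fintype V] [DecidableEq V] [Fintype E] [DecidableEq E] [Fintype ι]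
    (src dst : E → V) (T : SimpleGraph ι) (X : ι → Finset V) (hX : IsTreeDecomposition src dst T X)
    (hw : ∀ i, (X i).card ≤ 20) (hb : ∀ Y : Finset V, (boundary src dst Y).card ≠ 1) :
    (∃ f : E → ℤ, IsFlow src dst f ∧ ∀ e, 1 ≤ |f e| ∧ |f e| ≤ 4) ∧
      ∀ q : ℕ, 5 ≤ q → 0 < bondCharPoly src dst q :=
  result V E ι src dst T X hX (fun i S hS hc => by
    have := Finset.card_le_card hS
    have := hw i
    omega) hb

end Pool.Agent.Results.MP_9f8812_co.TreewidthNineteen
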